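import Mathlib
import Pool.Agent.H613R3.MomAlg

/-!
# Moment-curve systems of parameters without the Lefschetz property

Over every infinite field of positive characteristic there is a PL sphere (the join of the
boundaries of two simplices) and a moment-curve linear system of parameters whose Artinian
reduction does not have the Lefschetz property.
-/

namespace Pool.Agent.Results.MP_487945_co.PositiveChar

open Finset

universe u

section Defs

variable {V : Type}

/-- The stellar subdivision of the complex `Δ` (a set of faces) at the face `A`, with new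
vertex `w`. -/
def stellar [DecidableEq V] (Δ : Set (Finset V)) (A : Finset V) (w : V) : Set (Finset V) :=
  {F | F ∈ Δ ∧ ¬ A ⊆ F} ∪ {F | ∃ G : Finset V, F = insert w G ∧ ¬ A ⊆ G ∧ G ∪ A ∈ Δ}

/-- Complexes obtained from the boundary complex of a `d`-simplex by finitely many stellar
subdivisions.  All of them are PL spheres of dimension `d - 1`. -/
inductive StellarSphere [DecidableEq V] (d : ℕ) : Set (Finset V) → Prop
  | simplex (S : Finset V) (hS : S.card = d + 1) : StellarSphere d {F | F ⊂ S}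
  | subdivide (Δ : Set (Finset V)) (A : Finset V) (w : V) (hΔ : StellarSphere d Δ)
      (hA : A ∈ Δ) (hne : A.Nonempty) (hw : ∀ F ∈ Δ, w ∉ F) :
      StellarSphere d (stellar Δ A w)

variable (k : Type u) [Field k]

/-- The ideal generated by the monomials `∏_{v ∈ F} x_v`, `F` not a face. -/
noncomputable def faceIdeal (Δ : Set (Finset V)) : Ideal (MvPolynomial V k) :=
  Ideal.span {m | ∃ F : Finset V, F ∉ Δ ∧ m = ∏ v ∈ F, MvPolynomial.X v}

variable {k} in
/-- The linear forms `θ_j = ∑_v (p_v)_j x_v`. -/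
noncomputable def theta [Fintype V] {d : ℕ} (p : V → Fin d → k) (j : Fin d) :
    MvPolynomial V k :=
  ∑ v, MvPolynomial.C (p v j) * MvPolynomial.X v

variable {k}

/-- The ideal `I_Δ + (θ_1, …, θ_d)`. -/
noncomputable def redIdeal [Fintype V] {d : ℕ} (Δ : Set (Finset V)) (p : V → Fin d → k) :
    Ideal (MvPolynomial V k) :=
  faceIdeal k Δ ⊔ Ideal.span (Set.range (theta p))

/-- The Artinian reduction `A^*(Δ) = k[Δ] / (θ_1, …, θ_d)`. -/
abbrev Red [Fintype V] {d : ℕ} (Δ : Set (Finset V)) (p : V → Fin d → k) : Type u :=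
  MvPolynomial V k ⧸ redIdeal Δ p

/-- The graded piece `A^i(Δ)`. -/
noncomputable def gr [Fintype V] {d : ℕ} (Δ : Set (Finset V)) (p : V → Fin d → k) (i : ℕ) :
    Submodule k (Red Δ p) :=
  (MvPolynomial.homogeneousSubmodule V k i).map
    (Ideal.Quotient.mkₐ k (redIdeal Δ p)).toLinearMap

/-- The hard Lefschetz property of `A^*(Δ)`: some `ℓ ∈ A^1` makes every multiplication
`ℓ^{d-2j} : A^j → A^{d-j}`, `0 ≤ j ≤ d/2`, an isomorphism. -/
def HasLefschetz [Fintype V] {d : ℕ} (Δ : Set (Finset V)) (p : V → Fin d → k) : Prop :=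
  ∃ ℓ ∈ gr Δ p 1, ∀ j, 2 * j ≤ d →
    Set.BijOn (fun a => ℓ ^ (d - 2 * j) * a) (gr Δ p j) (gr Δ p (d - j))

/-- The points `p_v = (t_v, t_v^2, …, t_v^d)` on the moment curve. -/
def momentCurve (d : ℕ) (t : V → k) : V → Fin d → k := fun v j => t v ^ (j.val + 1)

end Defs

section Join

variable {L R : Type} [Fintype L] [Fintype R] [DecidableEq L] [DecidableEq R]

/-- The join of the boundary of the simplex on `L` with the boundary of the simplex on `R`:
the sets that contain neither all of `L` nor all of `R`. -/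
def joinBdry (L R : Type) : Set (Finset (L ⊕ R)) :=
  {F | (∃ l, Sum.inl l ∉ F) ∧ ∃ r, Sum.inr r ∉ F}

lemma joinBdry_sphere {d : ℕ} (hL : 2 ≤ Fintype.card L) (hR : 2 ≤ Fintype.card R)
    (hd : Fintype.card (L ⊕ R) = d + 2) : StellarSphere d (joinBdry L R) := by
  obtain ⟨w⟩ : Nonempty R := Fintype.card_pos_iff.mp (by omega)
  obtain ⟨l0⟩ : Nonempty L := Fintype.card_pos_iff.mp (by omega)
  let S : Finset (L ⊕ R) := univ.erase (Sum.inr w)
  let A : Finset (L ⊕ R) := univ.map Function.Embedding.inl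
  have hmemA : ∀ x : L ⊕ R, x ∈ A ↔ ∃ l, x = Sum.inl l := by
    intro x
    simp only [A, Finset.mem_map, Finset.mem_univ, true_and, Function.Embedding.inl_apply]
    constructor
    · rintro ⟨l, rfl⟩; exact ⟨l, rfl⟩
    · rintro ⟨l, rfl⟩; exact ⟨l, rfl⟩
  have hmemS : ∀ x : L ⊕ R, x ∈ S ↔ x ≠ Sum.inr w := by
    intro x; simp [S]
  have hS : S.card = d + 1 := by
    rw [Finset.card_erase_of_mem (Finset.mem_univ _), Finset.card_univ, hd]; rfl
  obtain ⟨r1, hr1⟩ : ∃ r : R, r ≠ w := by
    have : Nontrivial R := Fintype.one_lt_card_iff_nontrivial.mp (by omega)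
    exact exists_ne w
  have hA : A ∈ {F | F ⊂ S} := by
    rw [Set.mem_ofPred_eq, Finset.ssubset_iff_of_subset]
    · refine ⟨Sum.inr r1, ?_, ?_⟩
      · rw [hmemS]; simpa using hr1
      · rw [hmemA]; simp
    · intro x hx
      obtain ⟨l, rfl⟩ := (hmemA x).mp hx
      rw [hmemS]; simp
  have hAne : A.Nonempty := ⟨Sum.inl l0, (hmemA _).mpr ⟨l0, rfl⟩⟩
  have hw : ∀ F ∈ ({F | F ⊂ S} : Set (Finset (L ⊕ R))), Sum.inr w ∉ F := by
    intro F hF h
    have := (hmemS _).mp (hF.1 h)
    exact this rfl
  have key := StellarSphere.subdivide _ A (Sum.inr w) (StellarSphere.simplex S hS) hA hAne hw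
  convert key using 1
  ext F
  simp only [joinBdry, stellar, Set.mem_union, Set.mem_ofPred_eq]
  have hAF : ∀ F : Finset (L ⊕ R), ¬ A ⊆ F ↔ ∃ l, Sum.inl l ∉ F := by
    intro F
    rw [Finset.not_subset]
    constructor
    · rintro ⟨x, hx, hxF⟩
      obtain ⟨l, rfl⟩ := (hmemA x).mp hx
      exact ⟨l, hxF⟩
    · rintro ⟨l, hl⟩
      exact ⟨_, (hmemA _).mpr ⟨l, rfl⟩, hl⟩
  constructor
  · rintro ⟨hl, hr⟩
    by_cases hwF : Sum.inr w ∈ F
    · right
      refine ⟨F.erase (Sum.inr w), (Finset.insert_erase hwF).symm, ?_, ?_⟩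
      · rw [hAF]
        obtain ⟨l, hl⟩ := hl
        exact ⟨l, fun h => hl (Finset.mem_of_mem_erase h)⟩
      · obtain ⟨r, hr⟩ := hr
        have hrw : r ≠ w := by rintro rfl; exact hr hwF
        rw [Finset.ssubset_iff_of_subset]
        · refine ⟨Sum.inr r, ?_, ?_⟩
          · rw [hmemS]; simpa using hrw
          · rw [Finset.mem_union, hmemA]
            rintro (h | ⟨l, h⟩)
            · exact hr (Finset.mem_of_mem_erase h)
            · simp at h
        · intro x hx
          rw [hmemS]
          rintro rfl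
          rcases Finset.mem_union.mp hx with h | h
          · exact Finset.notMem_erase _ _ h
          · obtain ⟨l, hl⟩ := (hmemA _).mp h
            simp at hl
    · left
      refine ⟨?_, (hAF F).mpr hl⟩
      rw [Finset.ssubset_iff_of_subset]
      · obtain ⟨l, hl⟩ := hl
        exact ⟨Sum.inl l, (hmemS _).mpr (by simp), hl⟩
      · intro x hx
        rw [hmemS]
        rintro rfl
        exact hwF hx
  · rintro (⟨hF, hl⟩ | ⟨G, rfl, hG, hGA⟩)
    · exact ⟨(hAF F).mp hl, w, fun h => (hmemS _).mp (hF.1 h) rfl⟩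
    · obtain ⟨l, hl⟩ := (hAF G).mp hG
      refine ⟨⟨l, ?_⟩, ?_⟩
      · rw [Finset.mem_insert]
        rintro (h | h)
        · simp at h
        · exact hl h
      · obtain ⟨x, hxS, hx⟩ := Finset.exists_of_ssubset hGA
        rw [Finset.mem_union, hmemA] at hx
        push Not at hx
        rcases x with l' | r
        · exact absurd rfl (hx.2 l')
        · refine ⟨r, ?_⟩
          rw [Finset.mem_insert]
          rintro (h | h)
          · exact (hmemS _).mp hxS h
          · exact hx.1 h

end Join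

section Core

variable {k : Type u} [Field k] {L R : Type} [Fintype L] [Fintype R] [DecidableEq L]
  [DecidableEq R]

lemma redIdeal_ne_top {V : Type} [Fintype V] {d : ℕ} {Δ : Set (Finset V)} (h0 : ∅ ∈ Δ)
    (p : V → Fin d → k) : redIdeal Δ p ≠ ⊤ := by
  intro htop
  have hle : redIdeal Δ p ≤ RingHom.ker (MvPolynomial.constantCoeff (R := k) (σ := V)) := by
    rw [redIdeal, sup_le_iff]
    constructor
    · rw [faceIdeal, Ideal.span_le]
      rintro _ ⟨F, hF, rfl⟩
      have hne : F.Nonempty := by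
        rw [Finset.nonempty_iff_ne_empty]
        rintro rfl
        exact hF h0
      obtain ⟨v, hv⟩ := hne
      rw [SetLike.mem_coe, RingHom.mem_ker, map_prod]
      apply Finset.prod_eq_zero hv
      simp
    · rw [Ideal.span_le]
      rintro _ ⟨j, rfl⟩
      rw [SetLike.mem_coe, RingHom.mem_ker, theta, map_sum]
      apply Finset.sum_eq_zero
      intro v _
      simp
  have h1 : (1 : MvPolynomial V k) ∈ redIdeal Δ p := by rw [htop]; trivial
  have := hle h1
  rw [RingHom.mem_ker, map_one] at this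
  exact one_ne_zero this

/-- The main reduction: if every linear combination of two elements `s`, `t'` with
`∏_l (s + t_l t') = 0 = ∏_r (s + t_r t')` has vanishing `N`-th power, `N ≤ d`, then the Lefschetz
property fails. -/
lemma core {d N : ℕ} (hL : 2 ≤ Fintype.card L) (hR : 2 ≤ Fintype.card R)
    (hd : Fintype.card (L ⊕ R) = d + 2) (hNd : N ≤ d) (t : L ⊕ R → k)
    (ht : Function.Injective t) (ht0 : ∀ v, t v ≠ 0)
    (hN : ∀ (B : Type u) [CommRing B] [Algebra k B] (s t' : B),
      ∏ l, (s + t (Sum.inl l) • t') = 0 → ∏ r, (s + t (Sum.inr r) • t') = 0 →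
      ∀ α β : k, (α • s + β • t') ^ N = 0) :
    (∀ ℓ ∈ gr (joinBdry L R) (momentCurve d t) 1, ℓ ^ d = 0) ∧
      ¬ HasLefschetz (joinBdry L R) (momentCurve d t) := by
  obtain ⟨l0⟩ : Nonempty L := Fintype.card_pos_iff.mp (by omega)
  obtain ⟨r0⟩ : Nonempty R := Fintype.card_pos_iff.mp (by omega)
  set I := redIdeal (joinBdry L R) (momentCurve d t) with hI
  have h0 : (∅ : Finset (L ⊕ R)) ∈ joinBdry L R :=
    ⟨⟨l0, Finset.notMem_empty _⟩, ⟨r0, Finset.notMem_empty _⟩⟩
  have hnt : Nontrivial (Red (joinBdry L R) (momentCurve d t)) :=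
    Ideal.Quotient.nontrivial_iff.mpr (redIdeal_ne_top h0 _)
  let x : L ⊕ R → Red (joinBdry L R) (momentCurve d t) := fun v =>
    Ideal.Quotient.mk I (MvPolynomial.X v)
  have hrel : ∀ j, 1 ≤ j → j ≤ d → ∑ v, (t v ^ j) • x v = 0 := by
    intro j hj1 hjd
    have hmem : theta (momentCurve d t) ⟨j - 1, by omega⟩ ∈ I := by
      rw [hI, redIdeal]
      exact Ideal.mem_sup_right (Ideal.subset_span ⟨_, rfl⟩)
    have h1 := Ideal.Quotient.eq_zero_iff_mem.mpr hmem
    rw [theta, map_sum] at h1
    rw [← h1]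
    apply Finset.sum_congr rfl
    intro v _
    simp only [momentCurve, x]
    rw [show j - 1 + 1 = j by omega, ← MvPolynomial.smul_eq_C_mul]
    rfl
  obtain ⟨s, t', c, hc0, hc⟩ := H613R3.Mom.lin ht ht0 hd hrel
  have hprodL : ∏ l, (s + t (Sum.inl l) • t') = 0 := by
    have hnf : (univ.map Function.Embedding.inl : Finset (L ⊕ R)) ∉ joinBdry L R := by
      rintro ⟨⟨l, hl⟩, _⟩
      exact hl (Finset.mem_map_of_mem _ (Finset.mem_univ l))
    have hmem : (∏ v ∈ (univ.map Function.Embedding.inl : Finset (L ⊕ R)),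
        MvPolynomial.X v : MvPolynomial (L ⊕ R) k) ∈ I := by
      rw [hI, redIdeal]
      exact Ideal.mem_sup_left (Ideal.subset_span ⟨_, hnf, rfl⟩)
    have h1 := Ideal.Quotient.eq_zero_iff_mem.mpr hmem
    rw [map_prod, Finset.prod_map] at h1
    have h2 : ∏ l, x (Sum.inl l) = 0 := h1
    rw [Finset.prod_congr rfl fun l _ => hc (Sum.inl l)] at h2
    rw [Finset.prod_smul] at h2
    rcases smul_eq_zero.mp h2 with h3 | h3
    · exact absurd h3 (Finset.prod_ne_zero_iff.mpr fun l _ => hc0 _)
    · exact h3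
  have hprodR : ∏ r, (s + t (Sum.inr r) • t') = 0 := by
    have hnf : (univ.map Function.Embedding.inr : Finset (L ⊕ R)) ∉ joinBdry L R := by
      rintro ⟨_, ⟨r, hr⟩⟩
      exact hr (Finset.mem_map_of_mem _ (Finset.mem_univ r))
    have hmem : (∏ v ∈ (univ.map Function.Embedding.inr : Finset (L ⊕ R)),
        MvPolynomial.X v : MvPolynomial (L ⊕ R) k) ∈ I := by
      rw [hI, redIdeal]
      exact Ideal.mem_sup_left (Ideal.subset_span ⟨_, hnf, rfl⟩)
    have h1 := Ideal.Quotient.eq_zero_iff_mem.mpr hmem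
    rw [map_prod, Finset.prod_map] at h1
    have h2 : ∏ r, x (Sum.inr r) = 0 := h1
    rw [Finset.prod_congr rfl fun r _ => hc (Sum.inr r)] at h2
    rw [Finset.prod_smul] at h2
    rcases smul_eq_zero.mp h2 with h3 | h3
    · exact absurd h3 (Finset.prod_ne_zero_iff.mpr fun r _ => hc0 _)
    · exact h3
  have hlin : ∀ ℓ ∈ gr (joinBdry L R) (momentCurve d t) 1, ∃ α β : k, ℓ = α • s + β • t' := by
    intro ℓ hℓ
    obtain ⟨f, hf, rfl⟩ := hℓ
    rw [MvPolynomial.homogeneousSubmodule_one_eq_span_X] at hf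
    induction hf using Submodule.span_induction with
    | zero => exact ⟨0, 0, by simp⟩
    | add a b _ _ ha hb =>
      obtain ⟨α, β, h1⟩ := ha
      obtain ⟨α', β', h2⟩ := hb
      refine ⟨α + α', β + β', ?_⟩
      rw [map_add, h1, h2, add_smul, add_smul]
      abel
    | smul r a _ ha =>
      obtain ⟨α, β, h1⟩ := ha
      refine ⟨r * α, r * β, ?_⟩
      rw [map_smul, h1, smul_add, smul_smul, smul_smul]
    | mem a ha =>
      obtain ⟨v, rfl⟩ := ha
      refine ⟨c v, c v * t v, ?_⟩
      have : (Ideal.Quotient.mkₐ k (redIdeal (joinBdry L R) (momentCurve d t))).toLinearMap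
          (MvPolynomial.X v) = x v := rfl
      rw [this, hc v, smul_add, smul_smul]
  have hpow : ∀ ℓ ∈ gr (joinBdry L R) (momentCurve d t) 1, ℓ ^ d = 0 := by
    intro ℓ hℓ
    obtain ⟨α, β, rfl⟩ := hlin ℓ hℓ
    exact pow_eq_zero_of_le hNd (hN _ s t' hprodL hprodR α β)
  refine ⟨hpow, ?_⟩
  rintro ⟨ℓ, hℓ, hbij⟩
  have h1 := (hbij 0 (by omega)).injOn
  have hone : (1 : Red (joinBdry L R) (momentCurve d t)) ∈
      (gr (joinBdry L R) (momentCurve d t) 0 : Set (Red (joinBdry L R) (momentCurve d t))) := by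
    refine ⟨1, ?_, ?_⟩
    · exact MvPolynomial.isHomogeneous_one _ _
    · exact map_one (Ideal.Quotient.mkₐ k (redIdeal (joinBdry L R) (momentCurve d t)))
  have h2 : (1 : Red (joinBdry L R) (momentCurve d t)) = 0 := by
    apply h1 hone (Submodule.zero_mem _)
    simp only [Nat.mul_zero, Nat.sub_zero, hpow ℓ hℓ, zero_mul]
  exact one_ne_zero h2

/-- `p ≥ 5`: the parameters are the nonzero elements of the prime field and their multiples by an
element `g` outside the prime field. -/
lemma case_large (p : ℕ) [hp : Fact p.Prime] [CharP k p] (h5 : 5 ≤ p) (g : k)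
    (hg : g ^ p ≠ g) :
    ∃ t : (ZMod p)ˣ ⊕ (ZMod p)ˣ → k, Function.Injective t ∧ (∀ v, t v ≠ 0) ∧
      ∀ (B : Type u) [CommRing B] [Algebra k B] (s t' : B),
      ∏ l, (s + t (Sum.inl l) • t') = 0 → ∏ r, (s + t (Sum.inr r) • t') = 0 →
      ∀ α β : k, (α • s + β • t') ^ p = 0 := by
  have hodd : p ≠ 2 := by omega
  let φ := ZMod.castHom (dvd_refl p) k
  have hinj : Function.Injective φ := φ.injective
  have hφ : ∀ z : (ZMod p)ˣ, φ z ≠ 0 := fun z h => z.ne_zero (hinj (h.trans (map_zero φ).symm))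
  have hφp : ∀ z : (ZMod p)ˣ, φ z ^ p = φ z := by
    intro z
    rw [← map_pow, ZMod.pow_card]
  have hg0 : g ≠ 0 := by
    rintro rfl
    exact hg (by rw [zero_pow (by omega)])
  have hgφ : ∀ z w : (ZMod p)ˣ, φ z ≠ g * φ w := by
    intro z w h
    apply hg
    have h1 : g = φ z * (φ w)⁻¹ := by rw [h, mul_assoc, mul_inv_cancel₀ (hφ w), mul_one]
    rw [h1, mul_pow, inv_pow, hφp, hφp]
  refine ⟨fun v => v.elim (fun z : (ZMod p)ˣ => φ (z : ZMod p))
    (fun z : (ZMod p)ˣ => g * φ (z : ZMod p)), ?_, ?_, ?_⟩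
  · rintro (z | z) (w | w) h
    · simp only [Sum.elim_inl] at h
      rw [Units.ext (hinj h)]
    · exact absurd h (hgφ z w)
    · exact absurd h.symm (hgφ w z)
    · simp only [Sum.elim_inr] at h
      rw [Units.ext (hinj (mul_left_cancel₀ hg0 h))]
  · rintro (z | z)
    · exact hφ z
    · exact mul_ne_zero hg0 (hφ z)
  · intro B _ _ s t' hL hR α β
    simp only [Sum.elim_inl, Sum.elim_inr] at hL hR
    have h1 : s ^ (p - 1) - t' ^ (p - 1) = 0 := by
      rw [← H613R3.Mom.prod_units (k := k) p hodd s t']; exact hL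
    have h2 : s ^ (p - 1) - (g • t') ^ (p - 1) = 0 := by
      rw [← H613R3.Mom.prod_units (k := k) p hodd s (g • t'), ← hR]
      apply Finset.prod_congr rfl
      intro z _
      rw [smul_smul, mul_comm g]
    have h3 : (g ^ (p - 1) - 1) • t' ^ (p - 1) = 0 := by
      rw [sub_smul, one_smul, ← smul_pow]
      rw [sub_eq_zero] at h1 h2
      rw [← h1, ← h2, sub_self]
    have hgp : g ^ (p - 1) - 1 ≠ 0 := by
      intro h
      apply hg
      have h4 : g ^ (p - 1) = 1 := by rw [← sub_eq_zero]; exact h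
      calc g ^ p = g ^ (p - 1 + 1) := by rw [Nat.sub_add_cancel (by omega)]
        _ = g := by rw [pow_succ, h4, one_mul]
    have ht' : t' ^ (p - 1) = 0 := by
      rcases smul_eq_zero.mp h3 with h | h
      · exact absurd h hgp
      · exact h
    have hs : s ^ (p - 1) = 0 := by rw [ht', sub_zero] at h1; exact h1
    by_cases hB : Nontrivial B
    · have : CharP B p := charP_of_injective_algebraMap (algebraMap k B).injective p
      rw [add_pow_char, smul_pow, smul_pow, pow_eq_zero_of_le (by omega) ht',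
        pow_eq_zero_of_le (Nat.sub_le p 1) hs, smul_zero, smul_zero, add_zero]
    · have := not_nontrivial_iff_subsingleton.mp hB
      exact Subsingleton.elim _ _

/-- Moving points of the projective line away from `0` and `∞`. -/
lemma moebius [Infinite k] (P Q : L ⊕ R → k) (hPQ : ∀ u v, u ≠ v → P u * Q v ≠ P v * Q u)
    (h2 : 2 ≤ Fintype.card L) :
    ∃ t : L ⊕ R → k, Function.Injective t ∧ (∀ v, t v ≠ 0) ∧
      ∀ (B : Type u) [CommRing B] [Algebra k B] (s t' : B),
      ∏ l, (s + t (Sum.inl l) • t') = 0 → ∏ r, (s + t (Sum.inr r) • t') = 0 →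
      ∃ L1 L2 : B, ∏ l, (P (Sum.inl l) • L1 + Q (Sum.inl l) • L2) = 0 ∧
        ∏ r, (P (Sum.inr r) • L1 + Q (Sum.inr r) • L2) = 0 ∧
        ∀ α β : k, ∃ α' β' : k, α • s + β • t' = α' • L1 + β' • L2 := by
  classical
  have hne : ∀ v, P v ≠ 0 ∨ Q v ≠ 0 := by
    intro v
    by_contra h
    push Not at h
    have : Nontrivial L := Fintype.one_lt_card_iff_nontrivial.mp (by omega)
    have : Nontrivial (L ⊕ R) := Function.Injective.nontrivial (f := (Sum.inl : L → L ⊕ R))
      Sum.inl_injective
    obtain ⟨u, hu⟩ := exists_ne v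
    apply hPQ u v hu
    rw [h.1, h.2, mul_zero, zero_mul]
  let S : Finset k := univ.image fun v => -P v / Q v
  have hS : ∀ b, b ∉ S → ∀ v, P v + Q v * b ≠ 0 := by
    intro b hb v h
    by_cases hQ : Q v = 0
    · rw [hQ, zero_mul, add_zero] at h
      rcases hne v with h' | h'
      · exact h' h
      · exact h' hQ
    · apply hb
      rw [Finset.mem_image]
      refine ⟨v, Finset.mem_univ v, ?_⟩
      rw [div_eq_iff hQ]
      linear_combination -h
  obtain ⟨b, hb⟩ := Infinite.exists_notMem_finset S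
  obtain ⟨c, hc⟩ := Infinite.exists_notMem_finset (insert b S)
  rw [Finset.mem_insert, not_or] at hc
  have hbS := hS b hb
  have hcS := hS c hc.2
  have hbc : b - c ≠ 0 := sub_ne_zero.mpr fun h => hc.1 h.symm
  refine ⟨fun v => (P v + Q v * b) / (P v + Q v * c), ?_, ?_, ?_⟩
  · intro u v h
    by_contra huv
    apply hPQ u v huv
    simp only at h
    rw [div_eq_div_iff (hcS u) (hcS v)] at h
    have h1 : (b - c) * (P u * Q v - P v * Q u) = 0 := by linear_combination -h
    rcases mul_eq_zero.mp h1 with h2 | h2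
    · exact absurd h2 hbc
    · exact sub_eq_zero.mp h2
  · intro v
    exact div_ne_zero (hbS v) (hcS v)
  · intro B _ _ s t' hL hR
    have key : ∀ v, (P v + Q v * c) • (s + ((P v + Q v * b) / (P v + Q v * c)) • t') =
        P v • (s + t') + Q v • (c • s + b • t') := by
      intro v
      rw [smul_add, smul_smul, mul_div_cancel₀ _ (hcS v)]
      simp only [add_smul, smul_add, smul_smul]
      abel
    refine ⟨s + t', c • s + b • t', ?_, ?_, ?_⟩
    · rw [← Finset.prod_congr rfl fun l _ => key (Sum.inl l), Finset.prod_smul, hL, smul_zero]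
    · rw [← Finset.prod_congr rfl fun r _ => key (Sum.inr r), Finset.prod_smul, hR, smul_zero]
    · intro α β
      refine ⟨(α * b - β * c) / (b - c), (β - α) / (b - c), ?_⟩
      simp only [smul_add, smul_smul]
      have e1 : α • s = ((α * b - β * c) / (b - c)) • s + ((β - α) / (b - c) * c) • s := by
        rw [← add_smul]; congr 1; field_simp; ring
      have e2 : β • t' = ((α * b - β * c) / (b - c)) • t' + ((β - α) / (b - c) * b) • t' := by
        rw [← add_smul]; congr 1; field_simp; ring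
      rw [e1, e2]
      abel

/-- `p = 2` -/
lemma case_two [Infinite k] [CharP k 2] (x : k) (hx : x ^ 4 ≠ x) :
    ∃ t : Fin 3 ⊕ Fin 3 → k, Function.Injective t ∧ (∀ v, t v ≠ 0) ∧
      ∀ (B : Type u) [CommRing B] [Algebra k B] (s t' : B),
      ∏ l, (s + t (Sum.inl l) • t') = 0 → ∏ r, (s + t (Sum.inr r) • t') = 0 →
      ∀ α β : k, (α • s + β • t') ^ 4 = 0 := by
  have h2 : (2 : k) = 0 := by exact_mod_cast CharP.cast_eq_zero k 2
  have hfac : x * (x + 1) * (x ^ 2 + x + 1) ≠ 0 := by
    intro h
    apply hx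
    linear_combination h - (x ^ 3 + x ^ 2 + x) * h2
  have hx0 : x ≠ 0 := fun h => hfac (by rw [h]; ring)
  have hx1 : x + 1 ≠ 0 := fun h => hfac (by rw [h]; ring)
  have hx2 : x ^ 2 + x + 1 ≠ 0 := fun h => hfac (by rw [h]; ring)
  let P : Fin 3 ⊕ Fin 3 → k := fun v => v.elim ![1, 0, 1] ![1, 1 + x, x]
  let Q : Fin 3 ⊕ Fin 3 → k := fun v => v.elim ![0, 1, 1] ![x, 1, 1 + x]
  have hPQ : ∀ u v, u ≠ v → P u * Q v ≠ P v * Q u := by
    rintro (u | u) (v | v) huv h
    all_goals
      fin_cases u <;> fin_cases v <;> simp [P, Q] at huv h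
    all_goals first
      | exact hx0 h
      | exact hx0 h.symm
      | (apply hx0; linear_combination h)
      | (apply hx0; linear_combination -h)
      | (apply hx1; linear_combination h)
      | (apply hx1; linear_combination -h)
      | (apply hx1; linear_combination h + h2)
      | (apply hx1; linear_combination -h + h2)
      | (apply hx0; linear_combination h + x * h2)
      | (apply hx0; linear_combination -h + x * h2)
      | (apply hx1; linear_combination h + (x + 1) * h2)
      | (apply hx1; linear_combination -h + (x + 1) * h2)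
      | (apply hx2; linear_combination h + x * h2)
      | (apply hx2; linear_combination -h + x * h2)
      | (apply hx2; linear_combination h + (x + 1) * h2)
      | (apply hx2; linear_combination -h + (x + 1) * h2)
      | (apply hx2; linear_combination h + (x ^ 2 + x + 1) * h2)
      | (apply hx2; linear_combination -h + (x ^ 2 + x + 1) * h2)
      | (apply hx2; linear_combination h + x ^ 2 * h2)
      | (apply hx2; linear_combination -h + x ^ 2 * h2)
      | (apply hx2; linear_combination h + (x ^ 2 + x) * h2)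
      | (apply hx2; linear_combination -h + (x ^ 2 + x) * h2)
      | (apply hx2; linear_combination h)
      | (apply hx2; linear_combination -h)
      | (apply hx2; linear_combination h + h2)
      | (apply hx2; linear_combination -h + h2)
  obtain ⟨t, ht, ht0, hk⟩ := moebius (L := Fin 3) (R := Fin 3) P Q hPQ (by simp)
  refine ⟨t, ht, ht0, ?_⟩
  intro B _ _ s t' hL hR α β
  obtain ⟨L1, L2, hF, hG, hlin⟩ := hk B s t' hL hR
  obtain ⟨α', β', hαβ⟩ := hlin α β
  rw [hαβ]
  have h2B : (2 : B) = 0 := by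
    have := congrArg (algebraMap k B) h2
    rwa [map_ofNat, map_zero] at this
  rw [Fin.prod_univ_three] at hF hG
  simp only [P, Q, Sum.elim_inl, Sum.elim_inr, Matrix.cons_val_zero, Matrix.cons_val_one,
    Matrix.cons_val_two, Matrix.head_cons, Matrix.tail_cons, Algebra.smul_def, map_add,
    map_one, map_zero] at hF hG
  simp only [Algebra.smul_def]
  set X := algebraMap k B x
  set a := algebraMap k B α'
  set b := algebraMap k B β'
  have hinv : ∃ y : B, X * (1 + X) * y = 1 := by
    refine ⟨algebraMap k B (x * (1 + x))⁻¹, ?_⟩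
    have hne : x * (1 + x) ≠ 0 := mul_ne_zero hx0 (by rw [add_comm]; exact hx1)
    have : algebraMap k B (x * (1 + x)) * algebraMap k B (x * (1 + x))⁻¹ = 1 := by
      rw [← map_mul, mul_inv_cancel₀ hne, map_one]
    rw [map_mul, map_add, map_one] at this
    exact this
  obtain ⟨y, hy⟩ := hinv
  have hA : L1 ^ 4 = 0 := by
    linear_combination y * L1 * hG - y * ((1 + 3 * X + 2 * X ^ 2 + X ^ 3) * L1 + (X + X ^ 2) * L2) *
      hF + y * X * L1 ^ 2 * L2 ^ 2 * h2B - L1 ^ 4 * hy
  have hB : L2 ^ 4 = 0 := by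
    linear_combination y * L2 * hG - y * ((X + X ^ 2) * L1 + (1 + 2 * X + 3 * X ^ 2 + X ^ 3) * L2) *
      hF + y * X ^ 2 * L1 ^ 2 * L2 ^ 2 * h2B - L2 ^ 4 * hy
  linear_combination a ^ 4 * hA + b ^ 4 * hB +
    (2 * (a * L1) ^ 3 * (b * L2) + 3 * (a * L1) ^ 2 * (b * L2) ^ 2 +
      2 * (a * L1) * (b * L2) ^ 3) * h2B

/-- `p = 3` -/
lemma case_three [Infinite k] [CharP k 3] (x : k) (hx : x ^ 9 ≠ x) :
    ∃ t : Fin 4 ⊕ Fin 4 → k, Function.Injective t ∧ (∀ v, t v ≠ 0) ∧
      ∀ (B : Type u) [CommRing B] [Algebra k B] (s t' : B),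
      ∏ l, (s + t (Sum.inl l) • t') = 0 → ∏ r, (s + t (Sum.inr r) • t') = 0 →
      ∀ α β : k, (α • s + β • t') ^ 6 = 0 := by
  have h3 : (3 : k) = 0 := by exact_mod_cast CharP.cast_eq_zero k 3
  have h2 : (2 : k) ≠ 0 := by
    intro h
    have : (1 : k) = 0 := by linear_combination h3 - h
    exact one_ne_zero this
  have hfac : x * (x - 1) * (x + 1) * (x ^ 2 + 1) * (x ^ 2 + x - 1) * (x ^ 2 - x - 1) ≠ 0 := by
    intro h
    apply hx
    linear_combination h + (x ^ 7 - x ^ 3) * h3
  have hx0 : x ≠ 0 := fun h => hfac (by rw [h]; ring)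
  have hx1 : x - 1 ≠ 0 := fun h => hfac (by rw [h]; ring)
  have hx1' : x + 1 ≠ 0 := fun h => hfac (by rw [h]; ring)
  have hx2 : x ^ 2 + 1 ≠ 0 := fun h => hfac (by rw [h]; ring)
  have hx3 : x ^ 2 + x - 1 ≠ 0 := fun h => hfac (by rw [h]; ring)
  have hx4 : x ^ 2 - x - 1 ≠ 0 := fun h => hfac (by rw [h]; ring)
  let P : Fin 4 ⊕ Fin 4 → k := fun v => v.elim ![1, 0, 1, 1] ![1, x, 1 + x, x - 1]
  let Q : Fin 4 ⊕ Fin 4 → k := fun v => v.elim ![0, 1, 1, -1] ![-x, 1, x - 1, -(x + 1)]
  have hPQ : ∀ u v, u ≠ v → P u * Q v ≠ P v * Q u := by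
    rintro (u | u) (v | v) huv h
    all_goals
      fin_cases u <;> fin_cases v <;> simp [P, Q] at huv h
    all_goals first
      | exact h2 (by linear_combination h)
      | exact h2 (by linear_combination -h)
      | exact one_ne_zero (by linear_combination h : (1 : k) = 0)
      | exact one_ne_zero (by linear_combination -h : (1 : k) = 0)
      | exact one_ne_zero (by linear_combination h + h3 : (1 : k) = 0)
      | exact one_ne_zero (by linear_combination -h + h3 : (1 : k) = 0)
      | exact hx0 (by linear_combination h)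
      | exact hx0 (by linear_combination -h)
      | exact hx0 (by linear_combination h + x * h3)
      | exact hx0 (by linear_combination -h + x * h3)
      | exact hx1 (by linear_combination h)
      | exact hx1 (by linear_combination -h)
      | exact hx1 (by linear_combination h + x * h3)
      | exact hx1 (by linear_combination -h + x * h3)
      | exact hx1 (by linear_combination h - x * h3)
      | exact hx1 (by linear_combination -h - x * h3)
      | exact hx1' (by linear_combination h)
      | exact hx1' (by linear_combination -h)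
      | exact hx1' (by linear_combination h + x * h3)
      | exact hx1' (by linear_combination -h + x * h3)
      | exact hx1' (by linear_combination h - x * h3)
      | exact hx1' (by linear_combination -h - x * h3)
      | exact hx2 (by linear_combination h)
      | exact hx2 (by linear_combination -h)
      | exact hx2 (by linear_combination h + (x ^ 2 + 1) * h3)
      | exact hx2 (by linear_combination -h + (x ^ 2 + 1) * h3)
      | exact hx2 (by linear_combination h - (x ^ 2 + 1) * h3)
      | exact hx2 (by linear_combination -h - (x ^ 2 + 1) * h3)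
      | exact hx3 (by linear_combination h)
      | exact hx3 (by linear_combination -h)
      | exact hx3 (by linear_combination h + x * h3)
      | exact hx3 (by linear_combination -h + x * h3)
      | exact hx3 (by linear_combination h - x * h3)
      | exact hx3 (by linear_combination -h - x * h3)
      | exact hx4 (by linear_combination h)
      | exact hx4 (by linear_combination -h)
      | exact hx4 (by linear_combination h + x * h3)
      | exact hx4 (by linear_combination -h + x * h3)
      | exact hx4 (by linear_combination h - x * h3)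
      | exact hx4 (by linear_combination -h - x * h3)
  obtain ⟨t, ht, ht0, hk⟩ := moebius (L := Fin 4) (R := Fin 4) P Q hPQ (by simp)
  refine ⟨t, ht, ht0, ?_⟩
  intro B _ _ s t' hL hR α β
  obtain ⟨L1, L2, hF, hG, hlin⟩ := hk B s t' hL hR
  obtain ⟨α', β', hαβ⟩ := hlin α β
  rw [hαβ]
  have h3B : (3 : B) = 0 := by
    have := congrArg (algebraMap k B) h3
    rwa [map_ofNat, map_zero] at this
  rw [Fin.prod_univ_four] at hF hG
  simp only [P, Q, Sum.elim_inl, Sum.elim_inr, Matrix.cons_val_zero, Matrix.cons_val_one,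
    Matrix.cons_val_two, Matrix.cons_val_three, Matrix.head_cons, Matrix.tail_cons,
    Algebra.smul_def, map_add, map_sub, map_neg, map_one, map_zero] at hF hG
  simp only [Algebra.smul_def]
  set X := algebraMap k B x
  set a := algebraMap k B α'
  set b := algebraMap k B β'
  have hinv : ∃ y : B, X * (X ^ 2 - 1) * y = 1 := by
    refine ⟨algebraMap k B (x * (x ^ 2 - 1))⁻¹, ?_⟩
    have hne : x * (x ^ 2 - 1) ≠ 0 := by
      rw [show x ^ 2 - 1 = (x - 1) * (x + 1) by ring]
      exact mul_ne_zero hx0 (mul_ne_zero hx1 hx1')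
    have : algebraMap k B (x * (x ^ 2 - 1)) * algebraMap k B (x * (x ^ 2 - 1))⁻¹ = 1 := by
      rw [← map_mul, mul_inv_cancel₀ hne, map_one]
    rw [map_mul, map_sub, map_pow, map_one] at this
    exact this
  obtain ⟨y, hy⟩ := hinv
  have hF' : L1 ^ 3 * L2 - L1 * L2 ^ 3 = 0 := by linear_combination hF
  have hK : (L1 ^ 2 + L2 ^ 2) ^ 2 = 0 := by
    linear_combination y * hG + y * (X ^ 2 + 1) ^ 2 * hF' - (L1 ^ 2 + L2 ^ 2) ^ 2 * hy
  have hA : L1 ^ 6 = 0 := by
    linear_combination L1 ^ 2 * hK - 2 * L1 * L2 * hF' - L1 ^ 2 * L2 ^ 4 * h3B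
  have hB : L2 ^ 6 = 0 := by
    linear_combination L2 ^ 2 * hK - L1 * L2 * hF' - L1 ^ 2 * L2 ^ 4 * h3B
  have hC : L1 ^ 3 * L2 ^ 3 = 0 := by
    linear_combination L1 * L2 * hK - (L1 ^ 2 - L2 ^ 2) * hF' - L1 ^ 3 * L2 ^ 3 * h3B
  linear_combination a ^ 6 * hA + b ^ 6 * hB + 20 * a ^ 3 * b ^ 3 * hC +
    (2 * (a * L1) ^ 5 * (b * L2) + 5 * (a * L1) ^ 4 * (b * L2) ^ 2 +
      5 * (a * L1) ^ 2 * (b * L2) ^ 4 + 2 * (a * L1) * (b * L2) ^ 5) * h3B

end Core

/-- Over every infinite field of positive characteristic `p` there are a PL `(d-1)`-sphere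
(obtained from the boundary of a simplex by one stellar subdivision), with `d = 4` if `p = 2`,
`d = 6` if `p = 3` and `d = 2p - 4` if `p ≥ 5`, and pairwise distinct nonzero `t_v` such that the
Artinian reduction given by the moment-curve system does not have the Lefschetz property; in fact
`ℓ^d = 0` for all `ℓ ∈ A^1`. -/
theorem result (k : Type u) [Field k] [Infinite k] (p : ℕ) (hp : p.Prime) [CharP k p] :
    ∃ (V : Type) (_ : Fintype V) (_ : DecidableEq V) (d : ℕ) (Δ : Set (Finset V)) (t : V → k),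
      d = (if p = 2 then 4 else if p = 3 then 6 else 2 * p - 4) ∧
      Fintype.card V = d + 2 ∧ StellarSphere d Δ ∧
      Function.Injective t ∧ (∀ v, t v ≠ 0) ∧
      (∀ ℓ ∈ gr Δ (momentCurve d t) 1, ℓ ^ d = 0) ∧
      ¬ HasLefschetz Δ (momentCurve d t) := by
  have hgen : ∀ m : ℕ, 1 < m → ∃ x : k, x ^ m ≠ x := by
    intro m hm
    classical
    have hne : (Polynomial.X ^ m - Polynomial.X : Polynomial k) ≠ 0 :=
      FiniteField.X_pow_card_sub_X_ne_zero k hm
    obtain ⟨x, hx⟩ := Infinite.exists_notMem_finset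
      (Polynomial.X ^ m - Polynomial.X : Polynomial k).roots.toFinset
    refine ⟨x, fun h => hx ?_⟩
    rw [Multiset.mem_toFinset, Polynomial.mem_roots hne]
    simp [Polynomial.IsRoot, h]
  have hfact : Fact p.Prime := ⟨hp⟩
  by_cases hp2 : p = 2
  · subst hp2
    obtain ⟨x, hx⟩ := hgen 4 (by norm_num)
    obtain ⟨t, ht, ht0, hk⟩ := case_two x hx
    have := core (d := 4) (N := 4) (by simp) (by simp) (by simp) le_rfl t ht ht0 hk
    exact ⟨_, inferInstance, inferInstance, 4, joinBdry (Fin 3) (Fin 3), t, by simp, by simp,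
      joinBdry_sphere (by simp) (by simp) (by simp), ht, ht0, this.1, this.2⟩
  by_cases hp3 : p = 3
  · subst hp3
    obtain ⟨x, hx⟩ := hgen 9 (by norm_num)
    obtain ⟨t, ht, ht0, hk⟩ := case_three x hx
    have := core (d := 6) (N := 6) (by simp) (by simp) (by simp) le_rfl t ht ht0 hk
    exact ⟨_, inferInstance, inferInstance, 6, joinBdry (Fin 4) (Fin 4), t, by simp, by simp,
      joinBdry_sphere (by simp) (by simp) (by simp), ht, ht0, this.1, this.2⟩
  have h5 : 5 ≤ p := by
    have h2 := hp.two_le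
    have h4 : p ≠ 4 := by rintro rfl; revert hp; decide
    omega
  obtain ⟨g, hg⟩ := hgen p (by omega)
  obtain ⟨t, ht, ht0, hk⟩ := case_large p h5 g hg
  have hc : Fintype.card (ZMod p)ˣ = p - 1 := ZMod.card_units p
  have hc2 : Fintype.card ((ZMod p)ˣ ⊕ (ZMod p)ˣ) = (2 * p - 4) + 2 := by
    rw [Fintype.card_sum, hc]; omega
  have := core (d := 2 * p - 4) (N := p) (by rw [hc]; omega) (by rw [hc]; omega) hc2
    (by omega) t ht ht0 hk
  exact ⟨_, inferInstance, inferInstance, 2 * p - 4, joinBdry (ZMod p)ˣ (ZMod p)ˣ, t,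
    by simp [hp2, hp3], hc2, joinBdry_sphere (by rw [hc]; omega) (by rw [hc]; omega) hc2, ht, ht0,
    this.1, this.2⟩

end Pool.Agent.Results.MP_487945_co.PositiveChar
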